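import Pool.Agent.HIK.Stmts

/-! HIK, module RES: an element which is fixed by the decomposition group over `φ(K)(t)` and which
satisfies a monic equation over `𝓞 K [t]` has a value in `ψ(𝓞 K)`. -/

set_option autoImplicit false

namespace Pool.Agent.HIK.H55R

open Polynomial NumberField Pool.Agent.MTL Pool.Agent.MTL.H34

variable {K : Type} [Field K] [NumberField K]

/-- the elements of `Om` integral over `ℚ` are integral over `ℚ[t]` -/
theorem mem_BB_of_isIntegral {z : Om} (hz : IsIntegral ℚ z) : z ∈ BB := by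
  obtain ⟨p, hp, hp0⟩ := hz
  refine ⟨p.map (algebraMap ℚ ℚ[X]), hp.map _, ?_⟩
  rw [eval₂_map, ← hp0]
  exact congrArg (fun f => p.eval₂ f z) (Subsingleton.elim _ _)

/-- the images of the elements of `K` are integral over `ℚ` -/
theorem isIntegral_phi (φ : K →+* Om) (c : K) : IsIntegral ℚ (φ c) := by
  have h : IsIntegral ℚ c := Algebra.IsIntegral.isIntegral c
  obtain ⟨p, hp, hp0⟩ := h
  refine ⟨p, hp, ?_⟩
  have h1 := congrArg φ hp0
  rw [hom_eval₂, map_zero] at h1
  rw [← h1]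
  exact congrArg (fun f => p.eval₂ f (φ c)) (Subsingleton.elim _ _)

/-- and so are their images by the Galois group -/
theorem isIntegral_sigma (σ : GT) {z : Om} (hz : IsIntegral ℚ z) : IsIntegral ℚ (σ z) := by
  obtain ⟨p, hp, hp0⟩ := hz
  refine ⟨p, hp, ?_⟩
  have h1 := congrArg (σ : Om →+* Om) hp0
  rw [hom_eval₂, map_zero] at h1
  rw [← h1]
  exact congrArg (fun f => p.eval₂ f (σ z)) (Subsingleton.elim _ _)

/-- a homomorphism is injective on the constants -/
theorem eq_of_pi_eq (π : BB →+* QB) {b c : BB} (hb : IsIntegral ℚ (b : Om))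
    (hc : IsIntegral ℚ (c : Om)) (h : π b = π c) : b = c := by
  by_contra hne
  have hd : (b : Om) - c ≠ 0 := by
    intro h0
    exact hne (Subtype.ext (sub_eq_zero.1 h0))
  have h1 : IsIntegral ℚ ((b : Om) - c)⁻¹ := (hb.sub hc).inv
  obtain ⟨e, he⟩ : ∃ e : BB, (e : Om) = ((b : Om) - c)⁻¹ := ⟨⟨_, mem_BB_of_isIntegral h1⟩, rfl⟩
  have h2 : (b - c) * e = 1 := by
    apply Subtype.ext
    change ((b : Om) - c) * e = 1
    rw [he, mul_inv_cancel₀ hd]
  have h3 := congrArg π h2
  rw [map_mul, map_sub, h, sub_self, zero_mul, map_one] at h3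
  exact zero_ne_one h3

theorem isAlgClosure_rat (A : Algebra ℚ (AlgebraicClosure ℚ)) :
    @IsAlgClosure ℚ (AlgebraicClosure ℚ) _ _ A _ := by
  have h : A = AlgebraicClosure.instAlgebra (k := ℚ) := Subsingleton.elim _ _
  rw [h]
  infer_instance

theorem res (hdek : DekStmt) : ResStmt := by
  intro K _ _ ψ a π hπ φ hφ x g hg hx hfix
  -- the embedding of `K` in `BB`
  have hmem : ∀ c : K, φ c ∈ BB := fun c => mem_BB_of_isIntegral (isIntegral_phi φ c)
  obtain ⟨ι, hι⟩ : ∃ ι : K →+* BB, ∀ c, ((ι c : BB) : Om) = φ c :=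
    ⟨φ.codRestrict BB hmem, fun c => rfl⟩
  have hιπ : ∀ c, π (ι c) = ψ c := by
    intro c
    obtain ⟨b, hb, hb2⟩ := hφ c
    have h1 : ι c = b := Subtype.ext (by rw [hι, hb])
    rw [h1, hb2]
  -- the polynomials as elements of `BB`
  obtain ⟨zb, hzb⟩ : ∃ zb : (𝓞 K)[X] →+* BB, zb =
      eval₂RingHom (ι.comp (algebraMap (𝓞 K) K)) (algebraMap ℚ[X] BB X) := ⟨_, rfl⟩
  have hzc : (algebraMap BB Om).comp zb = zph φ := by
    rw [hzb]
    refine Polynomial.ringHom_ext ?_ ?_
    · intro c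
      simp only [RingHom.comp_apply, coe_eval₂RingHom, eval₂_C, zph]
      exact hι _
    · simp only [RingHom.comp_apply, coe_eval₂RingHom, eval₂_X, zph, tt]
      rfl
  have hzπ : π.comp zb = (ψ.comp (algebraMap (𝓞 K) K)).comp (evalRingHom a) := by
    rw [hzb]
    refine Polynomial.ringHom_ext ?_ ?_
    · intro c
      simp only [RingHom.comp_apply, coe_eval₂RingHom, eval₂_C, coe_evalRingHom, eval_C]
      exact hιπ _
    · simp only [RingHom.comp_apply, coe_eval₂RingHom, eval₂_X, coe_evalRingHom, eval_X]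
      exact hπ
  -- `x` is in `BB`
  have hxB : x ∈ BB := by
    have h1 : IsIntegral BB x := by
      refine ⟨g.map zb, hg.map _, ?_⟩
      rw [eval₂_map, hzc]
      exact hx
    exact isIntegral_trans (R := ℚ[X]) (A := BB) x h1
  obtain ⟨xb, rfl⟩ : ∃ xb : BB, (xb : Om) = x := ⟨⟨x, hxB⟩, rfl⟩
  have hx0 : g.eval₂ zb xb = 0 := by
    apply Subtype.ext
    have h1 : (algebraMap BB Om) (g.eval₂ zb xb) = 0 := by
      rw [hom_eval₂, hzc]
      exact hx
    exact h1
  -- the value is fixed by the Galois group of `ψ(K)`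
  have hfix2 : ∀ τ : GQ, (∀ c : K, τ (ψ c) = ψ c) → τ (π xb) = π xb := by
    intro τ hτ
    obtain ⟨-, hd⟩ := hdek (ψ a) π hπ
    obtain ⟨σ, hσ⟩ := hd τ (hτ _)
    have h1 : σ ∈ decG π := ⟨τ, hσ⟩
    have h2 : σ ∈ Gph φ := by
      intro c
      have h3 : σ • (ι c) = ι c := by
        refine eq_of_pi_eq π ?_ ?_ ?_
        · have h4 : ((σ • (ι c) : BB) : Om) = σ (φ c) := by
            rw [← hι c]
            rfl
          rw [h4]
          exact isIntegral_sigma σ (isIntegral_phi φ c)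
        · rw [hι]
          exact isIntegral_phi φ c
        · rw [hσ, hιπ, hτ]
      have h5 := congrArg (fun b : BB => (b : Om)) h3
      have h6 : σ (((ι c : BB)) : Om) = ((ι c : BB) : Om) := h5
      rw [hι] at h6
      exact h6
    have h7 : σ • xb = xb := Subtype.ext (hfix σ h1 h2)
    rw [← hσ xb, h7]
  -- so it is in `ψ(K)`
  have : IsAlgClosure ℚ (AlgebraicClosure ℚ) := isAlgClosure_rat _
  have : Normal ℚ (AlgebraicClosure ℚ) := IsAlgClosure.normal ℚ (AlgebraicClosure ℚ)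
  have : IsGalois ℚ (AlgebraicClosure ℚ) := IsGalois.mk
  have hk : ∃ k : K, ψ k = π xb := by
    let ψ' : K →ₐ[ℚ] QB := ψ.toRatAlgHom
    have h1 : π xb ∈ IntermediateField.fixedField ψ'.fieldRange.fixingSubgroup := by
      rw [IntermediateField.mem_fixedField_iff]
      intro τ hτ
      refine hfix2 τ fun c => ?_
      exact (IntermediateField.mem_fixingSubgroup_iff _ _).1 hτ (ψ c) ⟨c, rfl⟩
    rw [InfiniteGalois.fixedField_fixingSubgroup] at h1
    obtain ⟨k, hk⟩ := h1
    exact ⟨k, hk⟩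
  obtain ⟨k, hk⟩ := hk
  -- and integral
  have h1 : (g.map (evalRingHom a)).eval₂ (algebraMap (𝓞 K) K) k = 0 := by
    apply ψ.injective
    rw [map_zero, hom_eval₂, eval₂_map, hk, ← hzπ, ← hom_eval₂, hx0, map_zero]
  have h2 : IsIntegral (𝓞 K) k := ⟨_, hg.map _, h1⟩
  obtain ⟨y, rfl⟩ := (IsIntegrallyClosed.isIntegral_iff (R := 𝓞 K) (K := K)).1 h2
  refine ⟨y, ?_⟩
  have h3 : (algebraMap (𝓞 K) K) ((g.map (evalRingHom a)).eval y) = 0 := by
    rw [← h1, eval₂_at_apply]
  have h4 : (g.map (evalRingHom a)).eval y = 0 := by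
    apply FaithfulSMul.algebraMap_injective (𝓞 K) K
    rw [h3, map_zero]
  rw [eval_map, eval₂_evalRingHom] at h4
  exact h4

end Pool.Agent.HIK.H55R
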