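import Pool.Agent.HIK.Stmts

/-!
# Squad HIK, row AVW: density zero from windows
-/

set_option autoImplicit false

namespace Pool.Agent.HIK.H55

open NumberField
open scoped Classical

theorem house_add_nat {K : Type} [Field K] [NumberField K] (a : 𝓞 K) (k : ℕ) :
    house ((a + k : 𝓞 K) : K) ≤ house (a : K) + k := by
  have h1 : ((a + k : 𝓞 K) : K) = (a : K) + ((k : ℤ) : K) := by
    push_cast
    rfl
  rw [h1]
  refine (house_add_le _ _).trans ?_
  rw [house_intCast]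
  simp

theorem exists_fin {K : Type} [Field K] [NumberField K]
    (hfin : ∀ X : ℕ, {a : 𝓞 K | house (a : K) ≤ X}.Finite) (T : Set (𝓞 K)) (X : ℕ) :
    ∃ F : Finset (𝓞 K), (∀ a, a ∈ F ↔ a ∈ T ∧ house (a : K) ≤ X) ∧
      Nat.card {a : 𝓞 K // a ∈ T ∧ house (a : K) ≤ X} = F.card := by
  have h : {a : 𝓞 K | a ∈ T ∧ house (a : K) ≤ X}.Finite := (hfin X).subset fun a h => h.2
  refine ⟨h.toFinset, fun a => by simp, ?_⟩
  exact Nat.subtype_card _ (fun a => by simp)

/-- the double counting -/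
theorem count {K : Type} [Field K] [NumberField K]
    (hfin : ∀ X : ℕ, {a : 𝓞 K | house (a : K) ≤ X}.Finite) (S Z : Set (𝓞 K)) (C M : ℕ)
    (h : ∀ w : 𝓞 K, w ∉ Z → Nat.card {κ : ℕ // κ < M ∧ w - κ ∈ S} ≤ C) (X : ℕ) :
    M * Nat.card {a : 𝓞 K // a ∈ S ∧ house (a : K) ≤ X} ≤
      C * Nat.card {a : 𝓞 K // house (a : K) ≤ (X + M : ℕ)} +
        M * Nat.card {a : 𝓞 K // a ∈ Z ∧ house (a : K) ≤ (X + M : ℕ)} := by
  obtain ⟨A, hA, hAc⟩ := exists_fin hfin S X
  obtain ⟨E, hE, hEc⟩ := exists_fin hfin Z (X + M)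
  have hBf := hfin (X + M)
  set B := hBf.toFinset with hB
  have hBm : ∀ a, a ∈ B ↔ house (a : K) ≤ (X + M : ℕ) := fun a => by rw [hB]; simp
  have hBc : Nat.card {a : 𝓞 K // house (a : K) ≤ (X + M : ℕ)} = B.card :=
    Nat.subtype_card B hBm
  rw [hAc, hEc, hBc]
  set Q : Finset (𝓞 K × ℕ) := (B ×ˢ Finset.range M).filter fun p => p.1 - p.2 ∈ S with hQ
  have h1 : (A ×ˢ Finset.range M).card ≤ Q.card := by
    refine Finset.card_le_card_of_injOn (fun p => (p.1 + p.2, p.2)) ?_ ?_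
    · rintro ⟨a, k⟩ hp
      have hp' : a ∈ A ∧ k < M := by simpa using hp
      have ha := (hA a).1 hp'.1
      have hk : (k : ℝ) ≤ M := by exact_mod_cast hp'.2.le
      have h2 : house ((a + k : 𝓞 K) : K) ≤ (X + M : ℕ) := by
        refine (house_add_nat a k).trans ?_
        push_cast
        exact add_le_add ha.2 hk
      simp only [hQ, Finset.coe_filter, Finset.mem_product, Finset.mem_range, Set.mem_ofPred_eq]
      refine ⟨⟨(hBm _).2 h2, hp'.2⟩, ?_⟩
      simpa using ha.1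
    · rintro ⟨a, k⟩ - ⟨a', k'⟩ - hp
      simp only [Prod.mk.injEq] at hp
      obtain ⟨h3, rfl⟩ := hp
      have h4 : a = a' := by simpa using h3
      rw [h4]
  have h2 : Q.card = ∑ w ∈ B, ((Finset.range M).filter fun κ : ℕ => w - (κ : 𝓞 K) ∈ S).card := by
    rw [hQ, Finset.card_filter, Finset.sum_product]
    refine Finset.sum_congr rfl fun w _ => ?_
    rw [Finset.card_filter]
  have h3 : ∀ w ∈ B, ((Finset.range M).filter fun κ : ℕ => w - (κ : 𝓞 K) ∈ S).card ≤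
      C + if w ∈ Z then M else 0 := by
    intro w _
    by_cases hw : w ∈ Z
    · rw [if_pos hw]
      refine (Finset.card_filter_le _ _).trans ?_
      rw [Finset.card_range]
      omega
    · rw [if_neg hw, add_zero]
      have h4 : Nat.card {κ : ℕ // κ < M ∧ w - κ ∈ S} =
          ((Finset.range M).filter fun κ : ℕ => w - (κ : 𝓞 K) ∈ S).card :=
        Nat.subtype_card _ (fun κ => by simp)
      rw [← h4]
      exact h w hw
  have h4 : ∑ w ∈ B, (C + if w ∈ Z then M else 0) = C * B.card + M * E.card := by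
    rw [Finset.sum_add_distrib, Finset.sum_const, smul_eq_mul, ← Finset.sum_filter,
      Finset.sum_const, smul_eq_mul]
    have h5 : B.filter (fun w => w ∈ Z) = E := by
      ext w
      rw [Finset.mem_filter, hBm, hE, and_comm]
    rw [h5, mul_comm, mul_comm E.card]
  calc M * A.card = (A ×ˢ Finset.range M).card := by
        rw [Finset.card_product, Finset.card_range, mul_comm]
    _ ≤ Q.card := h1
    _ = _ := h2
    _ ≤ ∑ w ∈ B, (C + if w ∈ Z then M else 0) := Finset.sum_le_sum h3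
    _ = _ := h4

theorem avw (box : BoxStmt) (dzc : DzcStmt) : AvwStmt := by
  intro K _ _ S Z C hZ hS
  obtain ⟨CB, hCB⟩ := box K
  refine (dzc K).2.2.2 S fun ε hε => ?_
  set m := Module.finrank ℚ K with hm
  -- choice of `M`
  obtain ⟨M0, hM0⟩ := exists_nat_gt ((C : ℝ) * CB * 2 ^ m * 2 / ε)
  set M := M0 + 1 with hM
  have hMpos : (0 : ℝ) < M := by
    rw [hM]
    positivity
  have hMgt : (C : ℝ) * CB * 2 ^ m * 2 / ε < M := by
    refine hM0.trans ?_
    rw [hM]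
    push_cast
    linarith
  -- the exceptional set
  set ε' : ℝ := ε / 2 ^ (m + 1) with hε'
  have hε'pos : 0 < ε' := by positivity
  have hz := (hZ M).eventually (gt_mem_nhds hε'pos)
  obtain ⟨X1, hX1⟩ := Filter.eventually_atTop.1 hz
  refine ⟨max X1 (M + 1), fun X hX => ?_⟩
  have hX1' : X1 ≤ X := (le_max_left _ _).trans hX
  have hXM : M + 1 ≤ X := (le_max_right _ _).trans hX
  have h1 := count (fun X => (hCB X).1) S (Z M) C M (hS M) X
  have h2 := (hCB (X + M)).2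
  have h3 := hX1 (X + M) (by omega)
  set NS : ℝ := (Nat.card {a : 𝓞 K // a ∈ S ∧ house (a : K) ≤ X} : ℝ) with hNS
  have hpow : (0 : ℝ) < ((X + M : ℕ) : ℝ) ^ m := by
    have : (0 : ℝ) < ((X + M : ℕ) : ℝ) := by
      exact_mod_cast (by omega : 0 < X + M)
    positivity
  have h3' : (Nat.card {a : 𝓞 K // a ∈ Z M ∧ house (a : K) ≤ (X + M : ℕ)} : ℝ) <
      ε' * ((X + M : ℕ) : ℝ) ^ m := by
    rw [div_lt_iff₀ hpow] at h3
    exact h3
  have h1' : (M : ℝ) * NS ≤ C * (Nat.card {a : 𝓞 K // house (a : K) ≤ (X + M : ℕ)} : ℝ) +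
      M * (Nat.card {a : 𝓞 K // a ∈ Z M ∧ house (a : K) ≤ (X + M : ℕ)} : ℝ) := by
    rw [hNS]
    exact_mod_cast h1
  have h2' : (Nat.card {a : 𝓞 K // house (a : K) ≤ (X + M : ℕ)} : ℝ) ≤
      CB * ((X + M : ℕ) + 1 : ℝ) ^ m := by
    exact_mod_cast h2
  have hXr : (M : ℝ) + 1 ≤ X := by exact_mod_cast hXM
  have e1 : ((X + M : ℕ) + 1 : ℝ) ^ m ≤ 2 ^ m * (X : ℝ) ^ m := by
    rw [← mul_pow]
    refine pow_le_pow_left₀ (by positivity) ?_ m
    push_cast
    linarith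
  have e2 : ((X + M : ℕ) : ℝ) ^ m ≤ 2 ^ m * (X : ℝ) ^ m := by
    rw [← mul_pow]
    refine pow_le_pow_left₀ (by positivity) ?_ m
    push_cast
    linarith
  have hXpow : (0 : ℝ) ≤ (X : ℝ) ^ m := by positivity
  have f1 : (C : ℝ) * (Nat.card {a : 𝓞 K // house (a : K) ≤ (X + M : ℕ)} : ℝ) ≤
      (ε / 2 * M) * (X : ℝ) ^ m := by
    calc (C : ℝ) * (Nat.card {a : 𝓞 K // house (a : K) ≤ (X + M : ℕ)} : ℝ)
        ≤ C * (CB * (2 ^ m * (X : ℝ) ^ m)) := by
          refine mul_le_mul_of_nonneg_left (h2'.trans ?_) (by positivity)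
          exact mul_le_mul_of_nonneg_left e1 (by positivity)
      _ = (C * CB * 2 ^ m) * (X : ℝ) ^ m := by ring
      _ ≤ (ε / 2 * M) * (X : ℝ) ^ m := by
          refine mul_le_mul_of_nonneg_right ?_ hXpow
          rw [div_lt_iff₀ hε] at hMgt
          linarith
  have f2 : (M : ℝ) * (Nat.card {a : 𝓞 K // a ∈ Z M ∧ house (a : K) ≤ (X + M : ℕ)} : ℝ) ≤
      (ε / 2 * M) * (X : ℝ) ^ m := by
    calc (M : ℝ) * (Nat.card {a : 𝓞 K // a ∈ Z M ∧ house (a : K) ≤ (X + M : ℕ)} : ℝ)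
        ≤ M * (ε' * (2 ^ m * (X : ℝ) ^ m)) := by
          refine mul_le_mul_of_nonneg_left (h3'.le.trans ?_) hMpos.le
          exact mul_le_mul_of_nonneg_left e2 hε'pos.le
      _ = (ε / 2 * M) * (X : ℝ) ^ m := by
          rw [hε', pow_succ]
          field_simp
  have hfin : (M : ℝ) * NS ≤ M * (ε * (X : ℝ) ^ m) := by
    calc _ ≤ _ := h1'
      _ ≤ (ε / 2 * M) * (X : ℝ) ^ m + (ε / 2 * M) * (X : ℝ) ^ m := add_le_add f1 f2
      _ = _ := by ring
  exact le_of_mul_le_mul_left hfin hMpos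

end Pool.Agent.HIK.H55
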